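import Pool.Agent.H45.EGD.S1
import Pool.Agent.H45.EGH.All

/-!
# EGD: MNA, the first theorem
-/

set_option autoImplicit false

namespace Pool.EGD

open MvPolynomial Pool.EGH

/-- The data over the algebraic closure. -/
theorem base_data (K : Type) [Field K] (n : ℕ) (I : Ideal (MvPolynomial (Fin n) K))
    (hI : ∀ f ∈ I, ∀ d : ℕ, MvPolynomial.homogeneousComponent d f ∈ I)
    (hreg : ∃ rs : List (MvPolynomial (Fin n) K), rs.length = n ∧
        (∀ f ∈ rs, f.IsHomogeneous 2 ∧ f ∈ I) ∧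
        RingTheory.Sequence.IsRegular (MvPolynomial (Fin n) K) rs) :
    ∃ (Q I' : Ideal (PR (AlgebraicClosure K) n)), CI n Q ∧ Hg I' ∧ Q ≤ I' ∧
      ∀ i, hf I' i = hf I i := by
  obtain ⟨rs, hlen, hrs, hrg⟩ := hreg
  obtain ⟨I', rs', hI', hlen', hrs', hreg', hhf⟩ :=
    h_bac K n I rs hI hrs hrg.toIsWeaklyRegular
  have hQ := h_rgl (AlgebraicClosure K) n rs' (fun f hf => (hrs' f hf).1) hreg'
  refine ⟨Ideal.ofList rs', I', ⟨0, zero_add n, ?_⟩, hI',
    Ideal.span_le.2 fun f hf => (hrs' f hf).2, hhf⟩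
  rw [hlen', hlen] at hQ
  exact hQ

theorem t_mna (hDUA : DUAStmt) (hMA2 : MA2Stmt) : MainAStmt := by
  intro K _ n I hI hreg i hi h2 m hm hsum
  obtain ⟨Q, I', hQ, hI', hQI, hhf⟩ := base_data K n I hI hreg
  have h1 := hDUA (AlgebraicClosure K) n n i Q I' hQ hI' hQI
  rw [hhf, hhf] at h1
  change hf I i ≤ 2 * i at h2
  change hf I i = _ at hsum
  change hf I (i + 1) ≤ _
  rcases Nat.lt_or_ge i (hf I i) with h | h
  · exact (h1.2 h2).trans (hMA2 i m hi hm (hsum ▸ h))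
  · rw [h1.1 h]
    exact Nat.zero_le _

end Pool.EGD
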