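import Pool.Agent.H70.EGD.MNA

/-!
# EGD: MNB, the second theorem
-/

set_option autoImplicit false

namespace Pool.EGD

open MvPolynomial Pool.EGH Pool.EGC Pool.EGH.E8

theorem t_mnb (hDEF : DEFStmt) (hUPB : UPBStmt) : MainBStmt := by
  intro K _ n I hI hreg i hi h2 m hm hsum
  obtain ⟨Q, I', hQ, hI', hQI, hhf⟩ := base_data K n I hI hreg
  have h1 := hDEF (AlgebraicClosure K) n n i Q I' hQ hI' hQI
  rw [hhf, hhf] at h1
  change n.choose i ≤ hf I i + 2 at h2
  change hf I i = _ at hsum
  change hf I (i + 1) ≤ _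
  have hle : ∀ j, hf I j ≤ n.choose j := by
    intro j
    obtain ⟨k, hk, hM⟩ := hQ
    rw [← hhf, ← h_chf (AlgebraicClosure K) n k n Q hk hM j]
    exact (h_mon (AlgebraicClosure K) n Q I' j hQI).1
  have hMo : (Mo (cp n n) i).card = n.choose i := f_moc n i
  have hMo1 : (Mo (cp n n) (i + 1)).card = n.choose (i + 1) := f_moc n (i + 1)
  obtain ⟨B, hB, hBc⟩ := (f_sge n (cp n n) i).1 (n.choose i - hf I i) (by
    rw [hMo]
    exact Nat.sub_le _ _)
  have h3 := hle i
  have k3 := mag n i B m hB hm (by rw [← hsum, hMo]; omega)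
  rw [hMo1] at k3
  obtain ⟨u1, u2⟩ := hUPB n i B hB
  have hcases : B.card = 0 ∨ B.card = 1 ∨ B.card = 2 := by omega
  rcases hcases with hc | hc | hc
  · have : B = ∅ := Finset.card_eq_zero.1 hc
    rw [this, up_empty, Finset.card_empty] at k3
    have := hle (i + 1)
    omega
  · have := u1 hc
    have := h1.1 (by omega) (by omega)
    omega
  · have := u2 hc
    have := h1.2 (by omega)
    omega

end Pool.EGD
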