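import Pool.Agent.H70.EGD.PG1

/-!
# EGD: PEN, growth of pencils
-/

set_option autoImplicit false

namespace Pool.EGD

open MvPolynomial Pool.EGH

theorem t_pen (hPKF : PKFStmt) (hPG1 : PG1Stmt) : PENStmt := by
  have key : ∀ (n : ℕ) (K : Type) [Field K] [IsAlgClosed K] (N d : ℕ) (Q : Ideal (PR K N))
      (V : Submodule K (PR K N ⧸ Q)), CI n Q → V ≤ gp Q d → Module.finrank K V = 2 →
      2 * n ≤ dg Q V + (2 * d + 1) := by
    intro n
    induction n with
    | zero => intros; omega
    | succ n ih =>
      intro K _ _ N d Q V hQ hV h2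
      have hinf : Infinite K := IsAlgClosed.instInfinite
      obtain _ | d := d
      · exfalso
        have := (h_gpm K N Q).1 0
        have h3 := Submodule.finrank_mono hV
        rw [(h_gpd K N Q).2 (n + 1) hQ 0, Nat.choose_zero_right] at h3
        omega
      by_cases hKF : KF Q V
      · have := hPKF K N (n + 1) (d + 1) Q V hQ hV h2 hKF
        omega
      · simp only [KF] at hKF
        push Not at hKF
        obtain ⟨l, hl, v, hv, hlv, hl0, hv0⟩ := hKF
        by_cases hall : ∀ w ∈ V, l * w = 0
        · obtain ⟨Q', V', hQ', hV', hf, hdg⟩ := h_kiu K N n d Q l V hQ hl hl0 hV hall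
          have := ih K N d Q' V' hQ' hV' (hf.trans h2)
          omega
        · push Not at hall
          obtain ⟨w, hw, hlw⟩ := hall
          have hr := (h_rnk K N (d + 1) Q l V hV).2
          have a1 := hPG1 K N (n + 1) (d + 1) Q (kr l V) hQ (inf_le_left.trans hV)
            (fun h => hv0 (by
              have h3 : v ∈ kr l V := ⟨hv, hlv⟩
              rw [h] at h3
              exact h3))
          have a2 := hPG1 K N (n + 1) (1 + (d + 1)) Q (ml l V) hQ
            (by
              rintro _ ⟨x, hx, rfl⟩
              rw [← (h_gpm K N Q).2.1 1 (d + 1)]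
              exact Submodule.mul_mem_mul hl (hV hx))
            (fun h => hlw (by
              have h3 : l * w ∈ ml l V := ⟨w, hw, rfl⟩
              rw [h] at h3
              exact h3))
          omega
  intro K _ _ N n d Q V hQ hV h2
  have hfin : Module.Finite K ↥V := fin_le_gp hV
  obtain ⟨W, hWV, hW2⟩ : ∃ W : Submodule K (PR K N ⧸ Q), W ≤ V ∧ Module.finrank K W = 2 := by
    have li : LinearIndependent K
        (fun i : Fin 2 => ((Module.finBasis K ↥V (Fin.castLE h2 i) : ↥V) : PR K N ⧸ Q)) :=
      ((Module.finBasis K ↥V).linearIndependent.comp _ (Fin.castLE_injective h2)).map' V.subtype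
        V.ker_subtype
    refine ⟨Submodule.span K (Set.range fun i : Fin 2 =>
      ((Module.finBasis K ↥V (Fin.castLE h2 i) : ↥V) : PR K N ⧸ Q)), ?_, ?_⟩
    · rw [Submodule.span_le]
      rintro _ ⟨i, rfl⟩
      exact Subtype.prop _
    · rw [finrank_span_eq_card li, Fintype.card_fin]
  have h3 := key n K N d Q W hQ (hWV.trans hV) hW2
  have h4 : dg Q W ≤ dg Q V := by
    have : Module.Finite K ↥(gp Q 1 * V) := fin_le_gp (gp_mul_le hV)
    exact Submodule.finrank_mono (mul_le_mul' le_rfl hWV)
  omega

end Pool.EGD
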