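import Pool.Agent.H45.EGD.S1
import Pool.Agent.H45.EGH.All

/-!
# EGD: PG1, growth of one element
-/

set_option autoImplicit false

namespace Pool.EGD

open MvPolynomial Pool.EGH

theorem fin_le_gp {K : Type} [Field K] {N : ℕ} {Q : Ideal (PR K N)} {d : ℕ}
    {V : Submodule K (PR K N ⧸ Q)} (hV : V ≤ gp Q d) : Module.Finite K ↥V := by
  have := (h_gpm K N Q).1 d
  exact Submodule.finiteDimensional_of_le hV

theorem gp_mul_le {K : Type} [Field K] {N : ℕ} {Q : Ideal (PR K N)} {d : ℕ}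
    {V : Submodule K (PR K N ⧸ Q)} (hV : V ≤ gp Q d) : gp Q 1 * V ≤ gp Q (1 + d) := by
  rw [← (h_gpm K N Q).2.1 1 d]
  exact mul_le_mul' le_rfl hV

theorem t_pg1 : PG1Stmt := by
  intro K _ _ N n d Q V hQ hV hne
  by_cases hd : n ≤ d
  · omega
  obtain ⟨v, hv, hv0⟩ := (Submodule.ne_bot_iff V).mp hne
  have hf1 : Module.Finite K ↥(gp Q 1) := (h_gpm K N Q).1 1
  let f : ↥(gp Q 1) →ₗ[K] (PR K N ⧸ Q) := (LinearMap.mulRight K v).comp (gp Q 1).subtype
  have h1 : Module.finrank K ↥(LinearMap.range f) + Module.finrank K ↥(LinearMap.ker f) = n := by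
    rw [LinearMap.finrank_range_add_finrank_ker, (h_gpd K N Q).2 n hQ 1, Nat.choose_one_right]
  let L : Submodule K (PR K N ⧸ Q) := (LinearMap.ker f).map (gp Q 1).subtype
  have hL : L ≤ gp Q 1 := Submodule.map_subtype_le _ _
  have hLf : Module.finrank K ↥L = Module.finrank K ↥(LinearMap.ker f) :=
    Submodule.finrank_map_subtype_eq _ _
  have h2 := h_anv K N n Q hQ L hL d (by omega)
  have hva : v ∈ ann Q d L := by
    refine ⟨hV hv, ?_⟩
    rintro w ⟨x, hx, rfl⟩
    have hx' : f x = 0 := hx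
    have : (x : PR K N ⧸ Q) * v = 0 := hx'
    rw [mul_comm]
    exact this
  have : Module.Finite K ↥(ann Q d L) := fin_le_gp (d := d) (fun y hy => hy.1)
  have h3 : 0 < Module.finrank K ↥(ann Q d L) := by
    have : Nontrivial ↥(ann Q d L) :=
      ⟨⟨⟨v, hva⟩, 0, fun h => hv0 (by simpa using congrArg Subtype.val h)⟩⟩
    exact Module.finrank_pos
  have h4 : n - d ≤ n - Module.finrank K ↥L := by
    by_contra hcon
    rw [Nat.choose_eq_zero_of_lt (by omega)] at h2
    omega
  have h5 : Module.finrank K ↥(LinearMap.range f) ≤ dg Q V := by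
    have : Module.Finite K ↥(gp Q 1 * V) := fin_le_gp (gp_mul_le hV)
    apply Submodule.finrank_mono
    rintro _ ⟨x, rfl⟩
    exact Submodule.mul_mem_mul x.2 hv
  omega

end Pool.EGD
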