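import Pool.Agent.H70.EGD.PG1

/-!
# EGD: PKF, pencils without elements killed by a linear form
-/

set_option autoImplicit false

namespace Pool.EGD

open MvPolynomial Pool.EGH

theorem pc_dim {K : Type} [Field K] {N : ℕ} {S : Type} [AddCommGroup S] [Module K S]
    {L : Submodule K (PR K N)} {p q : S →ₗ[K] PR K N} (h : Pc L p q) :
    Module.finrank K ↥L + Module.finrank K S ≤ Module.finrank K ↥(fm K N 1) := by
  have hf : Module.Finite K ↥(fm K N 1) := h_fin K N 1
  have hLf : Module.Finite K ↥L := Submodule.finiteDimensional_of_le h.hL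
  have hpi : Function.Injective p := by
    rw [← LinearMap.ker_eq_bot, LinearMap.ker_eq_bot']
    intro x hx
    rcases h.inj 1 0 x (by rw [one_smul, zero_smul, add_zero, hx]; exact L.zero_mem) with h1 | h1
    · exact h1
    · exact absurd h1.1 one_ne_zero
  have hdis : L ⊓ LinearMap.range p = ⊥ := by
    rw [Submodule.eq_bot_iff]
    rintro _ ⟨h1, x, rfl⟩
    rcases h.inj 1 0 x (by rw [one_smul, zero_smul, add_zero]; exact h1) with h2 | h2
    · rw [h2, map_zero]
    · exact absurd h2.1 one_ne_zero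
  have hple : LinearMap.range p ≤ fm K N 1 := by
    rintro _ ⟨x, rfl⟩
    exact h.hp x
  have hpf : Module.Finite K ↥(LinearMap.range p) := Submodule.finiteDimensional_of_le hple
  have h1 := Submodule.finrank_sup_add_finrank_inf_eq L (LinearMap.range p)
  rw [hdis, finrank_bot, LinearMap.finrank_range_of_inj hpi] at h1
  have h2 := Submodule.finrank_mono (sup_le h.hL hple)
  omega

theorem pkf_core (hSCB : SCBStmt) (hCMQ : CMQStmt) {K : Type} [Field K] [IsAlgClosed K]
    {N n d : ℕ} {Q : Ideal (PR K N)} (hQ : CI n Q) (hd : d < n) {v : PR K N ⧸ Q}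
    (hv : v ∈ gp Q d) (hv0 : v ≠ 0) {S : Type} [AddCommGroup S] [Module K S] [Module.Finite K S]
    {L V0 : Submodule K (PR K N)} {p q : S →ₗ[K] PR K N} (hPc : Pc L p q)
    (hLn : Module.finrank K ↥L + n = N) (hV0 : V0 ≤ fm K N 2) (hV0n : Module.finrank K ↥V0 = n)
    (hQe : Q = Ideal.span (L : Set (PR K N)) ⊔ Ideal.span (V0 : Set (PR K N)))
    (hLQ : ∀ l ∈ fm K N 1, l ∈ Q → l ∈ L)
    (hmin : ∀ x y : S, Ideal.Quotient.mk Q (p x * q y - p y * q x) * v = 0) :
    Module.finrank K S ≤ d + 2 := by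
  have hinf : Infinite K := IsAlgClosed.instInfinite
  by_contra hcon
  push Not at hcon
  have hLleQ : ∀ l ∈ L, l ∈ Q := by
    intro l hl
    rw [hQe]
    exact Ideal.mem_sup_left (Ideal.subset_span hl)
  obtain ⟨k, hk, hM⟩ := id hQ
  have hfN : Module.finrank K ↥(fm K N 1) = N := by
    have h3 := h_chf K N k n Q hk hM 1
    rw [Nat.choose_one_right] at h3
    have h4 : Q.restrictScalars K ⊓ fm K N 1 = L := by
      apply le_antisymm
      · rintro l ⟨h5, h6⟩
        exact hLQ l h6 h5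
      · intro l hl
        exact ⟨hLleQ l hl, hPc.hL hl⟩
    unfold hf at h3
    rw [h4] at h3
    omega
  have hs := pc_dim hPc
  rw [hfN] at hs
  -- the forms which kill v
  let T : Ideal (PR K N) := Ideal.comap (Ideal.Quotient.mk Q)
    (LinearMap.ker (LinearMap.mulRight (PR K N ⧸ Q) v))
  have hT : ∀ f, f ∈ T ↔ Ideal.Quotient.mk Q f * v = 0 := fun f => Iff.rfl
  have hQT : Q ≤ T := by
    intro f hf
    rw [hT, Ideal.Quotient.eq_zero_iff_mem.2 hf, zero_mul]
  have hmi : mi L p q ≤ T := by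
    refine sup_le (Ideal.span_le.2 fun l hl => hQT (hLleQ l hl)) (Ideal.span_le.2 ?_)
    rintro _ ⟨x, y, rfl⟩
    exact hmin x y
  have hV0T : Ideal.span (V0 : Set (PR K N)) ≤ T := by
    refine le_trans ?_ hQT
    rw [hQe]
    exact le_sup_right
  have hCM := hSCB K N S L p q hPc (by omega)
    (N - Module.finrank K ↥L - Module.finrank K S) (by omega)
  have hV0ne : V0 ≠ ⊥ := by
    intro h
    rw [h, finrank_bot] at hV0n
    omega
  have hall := hCMQ K N _ 1 (mi L p q) V0 hCM hV0 hV0ne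
    ⟨n + 1, by
      intro f hf
      have hfQ : f ∈ Q := by
        have h3 := h_chf K N k n Q hk hM (n + 1)
        rw [Nat.choose_eq_zero_of_lt (Nat.lt_succ_self n)] at h3
        obtain ⟨h4, h5⟩ := h_mon K N Q ⊤ (n + 1) le_top
        exact h5 (by omega) f trivial hf
      rw [hQe] at hfQ
      exact (sup_le_sup_right (le_sup_left : _ ≤ mi L p q) _) hfQ⟩
    (n - d) (by omega)
  obtain ⟨y, hy, hyv⟩ := h_pai K N n Q hQ d (n - d) (by omega) v hv hv0
  obtain ⟨f, hf, rfl⟩ := hy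
  exact hyv ((hT f).1 ((sup_le hmi hV0T) (hall f hf)))

theorem t_pkf (hSCB : SCBStmt) (hCMQ : CMQStmt) : PKFStmt := by
  intro K _ _ N n d Q V hQ hV h2 hKF
  have hinf : Infinite K := IsAlgClosed.instInfinite
  by_contra hcon
  push Not at hcon
  have hn : 1 ≤ n := by omega
  have hVf : Module.Finite K ↥V := fin_le_gp hV
  -- a basis of the pencil
  let bV : Module.Basis (Fin 2) K ↥V := Module.finBasisOfFinrankEq K ↥V h2
  let v1 : PR K N ⧸ Q := (bV 0 : ↥V)
  let v2 : PR K N ⧸ Q := (bV 1 : ↥V)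
  have hv1 : v1 ∈ V := (bV 0).2
  have hv2 : v2 ∈ V := (bV 1).2
  have hli : ∀ a b : K, a • v1 + b • v2 = 0 → a = 0 ∧ b = 0 := by
    intro a b hab
    have h3 := (LinearIndependent.pair_iff (x := v1) (y := v2)).1 (by
      have h4 := bV.linearIndependent.map' V.subtype V.ker_subtype
      have h5 : (V.subtype ∘ bV) = ![v1, v2] := by
        funext i
        fin_cases i <;> rfl
      rw [h5] at h4
      exact h4)
    exact h3 a b hab
  have hv10 : v1 ≠ 0 := by
    intro h
    have := (hli 1 0 (by rw [h]; simp)).1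
    exact one_ne_zero this
  -- the syzygies
  have hf1 : Module.Finite K ↥(gp Q 1) := (h_gpm K N Q).1 1
  let φ : (↥(gp Q 1) × ↥(gp Q 1)) →ₗ[K] (PR K N ⧸ Q) :=
    ((LinearMap.mulRight K v1).comp (gp Q 1).subtype).coprod
      ((LinearMap.mulRight K v2).comp (gp Q 1).subtype)
  have hφ : ∀ x, φ x = (x.1 : PR K N ⧸ Q) * v1 + (x.2 : PR K N ⧸ Q) * v2 := fun x => rfl
  have hrn : Module.finrank K ↥(LinearMap.range φ) + Module.finrank K ↥(LinearMap.ker φ) =
      n + n := by
    rw [LinearMap.finrank_range_add_finrank_ker, Module.finrank_prod, (h_gpd K N Q).2 n hQ 1,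
      Nat.choose_one_right]
  have hrg : Module.finrank K ↥(LinearMap.range φ) ≤ dg Q V := by
    have : Module.Finite K ↥(gp Q 1 * V) := fin_le_gp (gp_mul_le hV)
    apply Submodule.finrank_mono
    rintro _ ⟨x, rfl⟩
    rw [hφ]
    exact add_mem (Submodule.mul_mem_mul x.1.2 hv1) (Submodule.mul_mem_mul x.2.2 hv2)
  -- the lifts
  let π : ↥(fm K N 1) →ₗ[K] ↥(gp Q 1) :=
    (Ideal.Quotient.mkₐ K Q).toLinearMap.submoduleMap (fm K N 1)
  have hπs : Function.Surjective π := LinearMap.submoduleMap_surjective _ _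
  obtain ⟨σ, hσ⟩ := π.exists_rightInverse_of_surjective (LinearMap.range_eq_top.2 hπs)
  have hσ' : ∀ x : ↥(gp Q 1), Ideal.Quotient.mk Q (σ x : PR K N) = (x : PR K N ⧸ Q) := by
    intro x
    have h3 := congrArg Subtype.val (LinearMap.congr_fun hσ x)
    exact h3
  obtain ⟨k, hk, hM⟩ := hQ
  obtain ⟨L, V0, hL, hLk, hV0, hV0n, hQe, hLQ⟩ := h_shp K N k n Q hM
  have hLleQ : ∀ l ∈ L, l ∈ Q := by
    intro l hl
    rw [hQe]
    exact Ideal.mem_sup_left (Ideal.subset_span hl)
  let p : ↥(LinearMap.ker φ) →ₗ[K] PR K N :=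
    ((fm K N 1).subtype.comp σ).comp ((LinearMap.fst K _ _).comp (LinearMap.ker φ).subtype)
  let q : ↥(LinearMap.ker φ) →ₗ[K] PR K N :=
    ((fm K N 1).subtype.comp σ).comp ((LinearMap.snd K _ _).comp (LinearMap.ker φ).subtype)
  have hp : ∀ x, Ideal.Quotient.mk Q (p x) = (x.1.1 : PR K N ⧸ Q) := fun x => hσ' x.1.1
  have hq : ∀ x, Ideal.Quotient.mk Q (q x) = (x.1.2 : PR K N ⧸ Q) := fun x => hσ' x.1.2
  have hker : ∀ x : ↥(LinearMap.ker φ),
      (x.1.1 : PR K N ⧸ Q) * v1 + (x.1.2 : PR K N ⧸ Q) * v2 = 0 := fun x => x.2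
  have hPc : Pc (S := ↥(LinearMap.ker φ)) L p q := by
    refine ⟨hL, fun x => (σ x.1.1).2, fun x => (σ x.1.2).2, ?_⟩
    intro a b x hx
    by_cases hab : a = 0 ∧ b = 0
    · exact Or.inr hab
    left
    have h3 : a • (x.1.1 : PR K N ⧸ Q) + b • (x.1.2 : PR K N ⧸ Q) = 0 := by
      have h4 := hLleQ _ hx
      rw [← Ideal.Quotient.eq_zero_iff_mem] at h4
      rw [← hp, ← hq]
      have h5 : Ideal.Quotient.mk Q (a • p x + b • q x) =
          a • Ideal.Quotient.mk Q (p x) + b • Ideal.Quotient.mk Q (q x) := by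
        rw [map_add]
        rfl
      rw [h5] at h4
      exact h4
    -- a common factor
    obtain ⟨m, hm1, hm2⟩ : ∃ m : ↥(gp Q 1), x.1.1 = (-b) • m ∧ x.1.2 = a • m := by
      by_cases ha : a = 0
      · have hb : b ≠ 0 := fun hb => hab ⟨ha, hb⟩
        refine ⟨(-b)⁻¹ • x.1.1, ?_, ?_⟩
        · rw [smul_smul, mul_inv_cancel₀ (neg_ne_zero.2 hb), one_smul]
        · rw [ha, zero_smul, zero_add] at h3
          rw [ha, zero_smul]
          apply Subtype.ext
          rcases smul_eq_zero.1 h3 with h | h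
          · exact absurd h hb
          · exact h
      · refine ⟨a⁻¹ • x.1.2, ?_, ?_⟩
        · apply Subtype.ext
          have h4 : (x.1.1 : PR K N ⧸ Q) = a⁻¹ • (a • (x.1.1 : PR K N ⧸ Q)) := by
            rw [smul_smul, inv_mul_cancel₀ ha, one_smul]
          have h5 : a • (x.1.1 : PR K N ⧸ Q) = (-b) • (x.1.2 : PR K N ⧸ Q) := by
            rw [neg_smul]
            exact eq_neg_of_add_eq_zero_left h3
          rw [h4, h5, smul_comm]
          rfl
        · rw [smul_smul, mul_inv_cancel₀ ha, one_smul]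
    have h6 : (m : PR K N ⧸ Q) * ((-b) • v1 + a • v2) = 0 := by
      have h7 := hker x
      rw [hm1, hm2] at h7
      have h8 : ((-b) • m : ↥(gp Q 1)) = ((-b) • (m : PR K N ⧸ Q) : PR K N ⧸ Q) := rfl
      have h9 : (a • m : ↥(gp Q 1)) = (a • (m : PR K N ⧸ Q) : PR K N ⧸ Q) := rfl
      rw [h8, h9, smul_mul_assoc, smul_mul_assoc] at h7
      rw [mul_add, mul_smul_comm, mul_smul_comm]
      exact h7
    have h10 : (m : PR K N ⧸ Q) = 0 := by
      rcases hKF m m.2 ((-b) • v1 + a • v2)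
        (add_mem (V.smul_mem _ hv1) (V.smul_mem _ hv2)) h6 with h | h
      · exact h
      · exfalso
        obtain ⟨h11, h12⟩ := hli _ _ h
        exact hab ⟨h12, neg_eq_zero.1 h11⟩
    have h11 : m = 0 := Subtype.ext h10
    apply Subtype.ext
    apply Prod.ext
    · rw [hm1, h11, smul_zero]
      rfl
    · rw [hm2, h11, smul_zero]
      rfl
  have hd : d < n := by
    by_contra hd
    have hfd : Module.Finite K ↥(gp Q d) := (h_gpm K N Q).1 d
    have h3 := Submodule.finrank_mono hV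
    rw [(h_gpd K N Q).2 n ⟨k, hk, hM⟩ d] at h3
    have h4 : n.choose d ≤ 1 := by
      rcases Nat.eq_or_lt_of_le (not_lt.1 hd) with h | h
      · rw [h, Nat.choose_self]
      · rw [Nat.choose_eq_zero_of_lt h]
        exact Nat.zero_le _
    omega
  have hfin := pkf_core hSCB hCMQ (S := ↥(LinearMap.ker φ)) ⟨k, hk, hM⟩ hd (hV hv1) hv10 hPc
    (by rw [hLk]; exact hk) hV0 hV0n hQe hLQ (by
      intro x y
      have hx := hker x
      have hy := hker y
      rw [map_sub, map_mul, map_mul, hp, hp, hq, hq]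
      linear_combination (y.1.2 : PR K N ⧸ Q) * hx - (x.1.2 : PR K N ⧸ Q) * hy)
  omega

end Pool.EGD
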