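import Pool.Agent.H70.EGD.PG1

/-!
# EGD: PKT, the end of the chain
-/

set_option autoImplicit false

namespace Pool.EGD

open MvPolynomial Pool.EGH

section
variable {K : Type} [Field K] {N : ℕ} {S : Type} [AddCommGroup S] [Module K S]
  {L : Submodule K (PR K N)} {p q : S →ₗ[K] PR K N} {a : ℕ} {x : ℕ → S} {y : ℕ → PR K N}

omit [AddCommGroup S] in
theorem pkt_rng (a : ℕ) (x : ℕ → S) : Set.range (fun i : Fin a => x i) = x '' Set.Iio a := by
  ext z
  constructor
  · rintro ⟨i, rfl⟩
    exact ⟨i, i.2, rfl⟩
  · rintro ⟨i, hi, rfl⟩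
    exact ⟨⟨i, hi⟩, rfl⟩

theorem pkt_finT (hc : Ch L p q a x y) :
    Module.finrank K ↥(Submodule.span K (x '' Set.Iio a)) = a := by
  rw [← pkt_rng, finrank_span_eq_card hc.li, Fintype.card_fin]

theorem pkt_map (hc : Ch L p q a x y) :
    (Submodule.span K (x '' Set.Iio a)).map p = Submodule.span K (y '' Set.Iio a) := by
  rw [Submodule.map_span, Set.image_image]
  have h1 : (fun i => p (x i)) '' Set.Iio a = y '' Set.Iio a := by
    apply Set.image_congr
    intro i hi
    exact (hc.py i hi).symm
  rw [h1]

theorem pkt_sub : Submodule.span K (y '' Set.Iio a) ≤ Submodule.span K (y '' Set.Iic a) :=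
  Submodule.span_mono (Set.image_mono Set.Iio_subset_Iic_self)

theorem pkt_p (hc : Ch L p q a x y) {t : S} (ht : t ∈ Submodule.span K (x '' Set.Iio a)) :
    p t ∈ L ⊔ Submodule.span K (y '' Set.Iic a) := by
  apply Submodule.mem_sup_right
  apply pkt_sub
  rw [← pkt_map hc]
  exact ⟨t, ht, rfl⟩

theorem pkt_q (hc : Ch L p q a x y) {t : S} (ht : t ∈ Submodule.span K (x '' Set.Iio a)) :
    q t ∈ L ⊔ Submodule.span K (y '' Set.Iic a) := by
  have h1 : Submodule.span K (x '' Set.Iio a) ≤
      (L ⊔ Submodule.span K (y '' Set.Iic a)).comap q := by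
    rw [Submodule.span_le]
    rintro _ ⟨i, hi, rfl⟩
    have h2 := hc.qy i hi
    have h3 : q (x i) = (q (x i) - y (i + 1)) + y (i + 1) := by ring
    change q (x i) ∈ L ⊔ Submodule.span K (y '' Set.Iic a)
    rw [h3]
    exact Submodule.add_mem _ (Submodule.mem_sup_left h2)
      (Submodule.mem_sup_right (Submodule.subset_span ⟨i + 1, hi, rfl⟩))
  exact h1 ht

end

theorem t_pkt : PKTStmt := by
  intro K _ N S _ _ _ L p q a x y hP hc
  have hLf : Module.Finite K ↥L := by
    have := h_fin K N 1
    exact Submodule.finiteDimensional_of_le hP.hL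
  refine ⟨?_, ?_⟩
  · intro C hC
    have hdec : ∀ s : S, ∃ t ∈ Submodule.span K (x '' Set.Iio a), ∃ c ∈ C, s = t + c := by
      intro s
      have h1 : s ∈ Submodule.span K (x '' Set.Iio a) ⊔ C := by
        rw [hC.sup_eq_top]
        trivial
      obtain ⟨t, ht, c, hcc, h2⟩ := Submodule.mem_sup.1 h1
      exact ⟨t, ht, c, hcc, h2.symm⟩
    have hL' : L ⊔ Submodule.span K (y '' Set.Iic a) ≤ fm K N 1 := by
      refine sup_le hP.hL ?_
      rw [Submodule.span_le]
      rintro _ ⟨i, hi, rfl⟩
      exact hc.yf i hi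
    refine ⟨⟨hL', fun z => hP.hp _, fun z => hP.hq _, ?_⟩, ?_, ?_, ?_, ?_⟩
    · intro b c z hz
      rcases hc.cl b c z hz with h | h
      · left
        have h1 : (z : S) ∈ Submodule.span K (x '' Set.Iio a) ⊓ C := ⟨h, z.2⟩
        rw [hC.inf_eq_bot] at h1
        exact Subtype.ext h1
      · exact Or.inr h
    · apply le_antisymm
      · refine sup_le (Ideal.span_le.2 ?_) (Ideal.span_le.2 ?_)
        · intro l hl
          obtain ⟨l1, h1, l2, h2, rfl⟩ := Submodule.mem_sup.1 hl
          refine Ideal.add_mem _ ?_ ?_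
          · exact Ideal.mem_sup_left (Ideal.mem_sup_left (Ideal.subset_span h1))
          · apply Ideal.mem_sup_right
            have h3 : Submodule.span K (y '' Set.Iic a) ≤
                (Ideal.span (y '' Set.Iio (a + 1))).restrictScalars K := by
              rw [Submodule.span_le]
              rintro _ ⟨i, hi, rfl⟩
              exact Ideal.subset_span ⟨i, Nat.lt_succ_of_le hi, rfl⟩
            exact h3 h2
        · rintro _ ⟨z, w, rfl⟩
          exact Ideal.mem_sup_left (Ideal.mem_sup_right (Ideal.subset_span ⟨z, w, rfl⟩))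
      · have hI : ∀ l ∈ L ⊔ Submodule.span K (y '' Set.Iic a),
            l ∈ mi (L ⊔ Submodule.span K (y '' Set.Iic a)) (p.comp C.subtype)
              (q.comp C.subtype) := fun l hl =>
          Ideal.mem_sup_left (Ideal.subset_span hl)
        refine sup_le (sup_le (Ideal.span_le.2 fun l hl => hI l (Submodule.mem_sup_left hl))
          (Ideal.span_le.2 ?_)) (Ideal.span_le.2 ?_)
        · rintro _ ⟨z, w, rfl⟩
          obtain ⟨t1, ht1, c1, hc1, rfl⟩ := hdec z
          obtain ⟨t2, ht2, c2, hc2, rfl⟩ := hdec w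
          have h1 := hI _ (pkt_p hc ht1)
          have h2 := hI _ (pkt_p hc ht2)
          have h3 := hI _ (pkt_q hc ht1)
          have h4 := hI _ (pkt_q hc ht2)
          have h5 : p c1 * q c2 - p c2 * q c1 ∈
              mi (L ⊔ Submodule.span K (y '' Set.Iic a)) (p.comp C.subtype)
                (q.comp C.subtype) :=
            Ideal.mem_sup_right (Ideal.subset_span ⟨⟨c1, hc1⟩, ⟨c2, hc2⟩, rfl⟩)
          have h6 : p (t1 + c1) * q (t2 + c2) - p (t2 + c2) * q (t1 + c1) =
              (p c1 * q c2 - p c2 * q c1) + (q (t2 + c2) * p t1 - q (t1 + c1) * p t2 +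
                (p c1 * q t2 - p c2 * q t1)) := by
            rw [map_add, map_add, map_add, map_add]
            ring
          change p (t1 + c1) * q (t2 + c2) - p (t2 + c2) * q (t1 + c1) ∈ _
          rw [h6]
          exact Ideal.add_mem _ h5 (Ideal.add_mem _
            (Ideal.sub_mem _ (Ideal.mul_mem_left _ _ h1) (Ideal.mul_mem_left _ _ h2))
            (Ideal.sub_mem _ (Ideal.mul_mem_left _ _ h4) (Ideal.mul_mem_left _ _ h3)))
        · rintro _ ⟨i, hi, rfl⟩
          exact hI _ (Submodule.mem_sup_right
            (Submodule.subset_span ⟨i, Nat.le_of_lt_succ hi, rfl⟩))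
    · rintro f ⟨Z, hZ⟩
      refine ⟨Z, fun c hcZ => ?_⟩
      have h1 : fi L p q c ≤ fi (L ⊔ Submodule.span K (y '' Set.Iic a)) (p.comp C.subtype)
          (q.comp C.subtype) c := by
        apply Ideal.span_le.2
        intro l hl
        apply Ideal.subset_span
        obtain ⟨l1, h1, l2, ⟨s, rfl⟩, rfl⟩ := Submodule.mem_sup.1 hl
        obtain ⟨t, ht, d, hd, rfl⟩ := hdec s
        refine Submodule.add_mem _ (Submodule.mem_sup_left (Submodule.mem_sup_left h1)) ?_
        rw [map_add]
        refine Submodule.add_mem _ (Submodule.mem_sup_left ?_)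
          (Submodule.mem_sup_right ⟨⟨d, hd⟩, rfl⟩)
        exact Submodule.add_mem _ (pkt_p hc ht) (Submodule.smul_mem _ c (pkt_q hc ht))
      exact h1 (hZ c hcZ)
    · -- dimension of the linear part
      have hY : L ⊔ Submodule.span K (y '' Set.Iic a) =
          (L ⊔ (Submodule.span K (x '' Set.Iio a)).map p) ⊔ Submodule.span K {y a} := by
        rw [pkt_map hc, sup_assoc, ← Submodule.span_union]
        have h1 : y '' Set.Iio a ∪ {y a} = y '' Set.Iic a := by
          rw [← Set.image_singleton, ← Set.image_union]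
          apply congrArg
          ext i
          simp only [Set.mem_union, Set.mem_Iio, Set.mem_singleton_iff, Set.mem_Iic]
          omega
        rw [h1]
      have hpi : Function.Injective p := by
        rw [← LinearMap.ker_eq_bot, LinearMap.ker_eq_bot']
        intro z hz
        rcases hP.inj 1 0 z (by rw [one_smul, zero_smul, add_zero, hz]; exact L.zero_mem) with
          h1 | h1
        · exact h1
        · exact absurd h1.1 one_ne_zero
      have hdis : L ⊓ (Submodule.span K (x '' Set.Iio a)).map p = ⊥ := by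
        rw [Submodule.eq_bot_iff]
        rintro _ ⟨h1, z, -, rfl⟩
        rcases hP.inj 1 0 z (by rw [one_smul, zero_smul, add_zero]; exact h1) with h2 | h2
        · rw [h2, map_zero]
        · exact absurd h2.1 one_ne_zero
      have h1 := Submodule.finrank_sup_add_finrank_inf_eq L
        ((Submodule.span K (x '' Set.Iio a)).map p)
      have hmp : Module.finrank K ↥((Submodule.span K (x '' Set.Iio a)).map p) = a := by
        rw [← (Submodule.equivMapOfInjective p hpi (Submodule.span K (x '' Set.Iio a))).finrank_eq,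
          pkt_finT hc]
      rw [hdis, finrank_bot, hmp] at h1
      have hle : L ⊔ (Submodule.span K (x '' Set.Iio a)).map p ≤ L ⊔ LinearMap.range p := by
        refine sup_le_sup_left ?_ _
        rintro _ ⟨z, -, rfl⟩
        exact ⟨z, rfl⟩
      have hya : y a ∉ L ⊔ (Submodule.span K (x '' Set.Iio a)).map p := fun h => hc.ya (hle h)
      have hy0 : y a ≠ 0 := fun h => hya (by rw [h]; exact Submodule.zero_mem _)
      have hdis2 : (L ⊔ (Submodule.span K (x '' Set.Iio a)).map p) ⊓ Submodule.span K {y a} =
          ⊥ := by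
        rw [Submodule.eq_bot_iff]
        rintro z ⟨h2, h3⟩
        obtain ⟨c, rfl⟩ := Submodule.mem_span_singleton.1 h3
        by_cases hc0 : c = 0
        · rw [hc0, zero_smul]
        · exfalso
          apply hya
          have h4 := Submodule.smul_mem _ c⁻¹ h2
          rwa [smul_smul, inv_mul_cancel₀ hc0, one_smul] at h4
      have h2 := Submodule.finrank_sup_add_finrank_inf_eq
        (L ⊔ (Submodule.span K (x '' Set.Iio a)).map p) (Submodule.span K {y a})
      rw [hdis2, finrank_bot, finrank_span_singleton hy0] at h2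
      rw [hY]
      omega
    · have h1 := Submodule.finrank_add_eq_of_isCompl hC
      rw [pkt_finT hc] at h1
      omega
  · intro hS
    have hT : Submodule.span K (x '' Set.Iio a) = ⊤ := by
      apply Submodule.eq_top_of_finrank_eq
      rw [pkt_finT hc, hS]
    have hr : LinearMap.range p = Submodule.span K (y '' Set.Iio a) := by
      rw [← pkt_map hc, hT, Submodule.map_top]
    have h0 : fi L p q 0 = Ideal.span ((L ⊔ Submodule.span K (y '' Set.Iio a) :
        Submodule K (PR K N)) : Set (PR K N)) := by
      unfold fi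
      rw [zero_smul, add_zero, hr]
    rw [h0]
    have hI : ∀ l ∈ L ⊔ Submodule.span K (y '' Set.Iio a),
        l ∈ Ideal.span ((L ⊔ Submodule.span K (y '' Set.Iio a) :
        Submodule K (PR K N)) : Set (PR K N)) := fun l hl => Ideal.subset_span hl
    have hpI : ∀ z, p z ∈ Ideal.span ((L ⊔ Submodule.span K (y '' Set.Iio a) :
        Submodule K (PR K N)) : Set (PR K N)) := fun z =>
      hI _ (Submodule.mem_sup_right (by rw [← hr]; exact ⟨z, rfl⟩))
    apply le_antisymm
    · refine sup_le (sup_le (Ideal.span_le.2 fun l hl => hI l (Submodule.mem_sup_left hl))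
        (Ideal.span_le.2 ?_)) (Ideal.span_le.2 ?_)
      · rintro _ ⟨z, w, rfl⟩
        rw [mul_comm (p z), mul_comm (p w)]
        exact Ideal.sub_mem _ (Ideal.mul_mem_left _ _ (hpI z)) (Ideal.mul_mem_left _ _ (hpI w))
      · rintro _ ⟨i, hi, rfl⟩
        exact hI _ (Submodule.mem_sup_right (Submodule.subset_span ⟨i, hi, rfl⟩))
    · apply Ideal.span_le.2
      intro l hl
      obtain ⟨l1, h1, l2, h2, rfl⟩ := Submodule.mem_sup.1 hl
      refine Ideal.add_mem _ (Ideal.mem_sup_left (Ideal.mem_sup_left (Ideal.subset_span h1))) ?_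
      apply Ideal.mem_sup_right
      have h3 : Submodule.span K (y '' Set.Iio a) ≤
          (Ideal.span (y '' Set.Iio a)).restrictScalars K := by
        rw [Submodule.span_le]
        exact Ideal.subset_span
      exact h3 h2

end Pool.EGD
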